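import Pool.Agent.Q118.Spread
set_option autoImplicit false

/-!
Degree spread threshold: the identity `Φ_n(G,H) = r(G,H) - 2` fails for every pair of graphs of
minimum degree at least two as soon as `n` is close to `r(G,H)`.
-/

namespace Pool.Agent.Results.MP_f2857b_co.SmallOrders

open Pool.Agent.Q118.Spread

/-- (1) If all degrees of `G` and `H` are at least `δ`, then `Φ_n(G,H) < r(G,H) - 2` for every `n`
with `r(G,H) ≤ n ≤ r(G,H) + δ - 2`; (2) hence the identity is not true for all graphs `G`, `H`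
without isolated vertices and all `n ≥ r(G,H)`. -/
theorem result :
    (∀ (α β : Type) [Finite α] [Finite β] (G : SimpleGraph α) (H : SimpleGraph β) (δ n : ℕ),
      Proper G → Proper H →
      (∀ v, δ ≤ (G.neighborSet v).ncard) → (∀ v, δ ≤ (H.neighborSet v).ncard) →
      ramseyNumber G H ≤ n → n + 2 ≤ ramseyNumber G H + δ →
      Phi n G H < ramseyNumber G H - 2) ∧
    ¬ (∀ (α β : Type) [Finite α] [Finite β] (G : SimpleGraph α) (H : SimpleGraph β),
      Proper G → Proper H → ∀ n, ramseyNumber G H ≤ n → Phi n G H = ramseyNumber G H - 2) := by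
  have h1 : ∀ (α β : Type) [Finite α] [Finite β] (G : SimpleGraph α) (H : SimpleGraph β) (δ n : ℕ),
      Proper G → Proper H →
      (∀ v, δ ≤ (G.neighborSet v).ncard) → (∀ v, δ ≤ (H.neighborSet v).ncard) →
      ramseyNumber G H ≤ n → n + 2 ≤ ramseyNumber G H + δ →
      Phi n G H < ramseyNumber G H - 2 := by
    intro α β _ _ G H δ n hG hH hdG hdH hr hn
    have := Phi_add_le (n := n) ⟨hG.1.choose⟩ ⟨hH.1.choose⟩ hdG hdH hr
    omega
  refine ⟨h1, fun h => ?_⟩
  have hp : Proper (⊤ : SimpleGraph (Fin 3)) := by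
    refine ⟨⟨0, 1, by simp⟩, fun v => ⟨v + 1, ?_⟩⟩
    fin_cases v <;> simp
  have hd : ∀ v : Fin 3, 2 ≤ ((⊤ : SimpleGraph (Fin 3)).neighborSet v).ncard := by
    intro v
    have h2 : (⊤ : SimpleGraph (Fin 3)).neighborSet v = ({v}ᶜ : Set (Fin 3)) := by
      ext w
      simp only [SimpleGraph.mem_neighborSet, SimpleGraph.top_adj, Set.mem_compl_iff,
        Set.mem_singleton_iff]
      exact ne_comm
    have h3 := Set.ncard_add_ncard_compl ({v} : Set (Fin 3))
    rw [Set.ncard_singleton, Nat.card_eq_fintype_card, Fintype.card_fin] at h3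
    rw [h2]
    omega
  have h4 := h1 (Fin 3) (Fin 3) ⊤ ⊤ 2 (ramseyNumber (⊤ : SimpleGraph (Fin 3))
    (⊤ : SimpleGraph (Fin 3))) hp hp hd hd le_rfl le_rfl
  have h5 := h (Fin 3) (Fin 3) ⊤ ⊤ hp hp _ le_rfl
  omega

end Pool.Agent.Results.MP_f2857b_co.SmallOrders
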